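import Pool.Agent.Helper36.SPR.St4

/-!
# Project SPR3, module PF3: orthogonality formula for `prbv`
-/

set_option autoImplicit false

namespace Pool.Agent.Helper99.SPR

open Finset
open Pool.Agent.Helper36.SPR

lemma addChar_sum {A M ι : Type} [AddCommMonoid A] [CommMonoid M] (ψ : AddChar A M)
    (s : Finset ι) (f : ι → A) : ψ (∑ i ∈ s, f i) = ∏ i ∈ s, ψ (f i) := by
  classical
  induction s using Finset.induction_on with
  | empty => simp
  | insert a s ha ih => rw [Finset.sum_insert ha, Finset.prod_insert ha,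
      AddChar.map_add_eq_mul, ih]

/-- the character sum over a word -/
lemma sum_word (n T k : ℕ) [NeZero n] (th : ZMod n) (c : Fin k → ZMod n) (a : ZMod n) :
    ∑ v : Fin k → Fin T, ZMod.stdAddChar (a * (1 + ∑ i, c i * th ^ (v i : ℕ)))
      = ZMod.stdAddChar a * ∏ i, ∑ t ∈ range T, ZMod.stdAddChar (a * c i * th ^ t) := by
  have h1 : ∀ v : Fin k → Fin T,
      ZMod.stdAddChar (a * (1 + ∑ i, c i * th ^ (v i : ℕ)))
        = ZMod.stdAddChar a * ∏ i, ZMod.stdAddChar (a * c i * th ^ (v i : ℕ)) := by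
    intro v
    rw [mul_add, mul_one, AddChar.map_add_eq_mul, Finset.mul_sum, addChar_sum]
    simp only [mul_assoc]
  rw [Finset.sum_congr rfl (fun v _ => h1 v), ← Finset.mul_sum]
  congr 1
  have h2 := (Finset.prod_univ_sum (fun _ : Fin k => (Finset.univ : Finset (Fin T)))
    (fun (i : Fin k) (t : Fin T) => ZMod.stdAddChar (a * c i * th ^ (t : ℕ))))
  rw [Fintype.piFinset_univ] at h2
  rw [← h2]
  refine Finset.prod_congr rfl fun i _ => ?_
  exact (Finset.sum_range (fun t => ZMod.stdAddChar (a * c i * th ^ t))).symm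

lemma prbv_eq (n T k : ℕ) [NeZero n] (th : ZMod n) (c : Fin k → ZMod n) (hT : 0 < T) :
    (prbv n T k th c : ℂ)
      = (∑ a : ZMod n, ZMod.stdAddChar a * ∏ i, muv n T th (a * c i)) / n := by
  have hn : (n : ℂ) ≠ 0 := by exact_mod_cast NeZero.ne n
  have hTc : (T : ℂ) ≠ 0 := by exact_mod_cast hT.ne'
  have h0 : ∀ v : Fin k → Fin T,
      (∑ a : ZMod n, ZMod.stdAddChar (a * (1 + ∑ i, c i * th ^ (v i : ℕ)))) =
        if (1 + ∑ i, c i * th ^ (v i : ℕ) = 0) then (n : ℂ) else 0 := by
    intro v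
    rw [AddChar.sum_mulShift _ (ZMod.isPrimitive_stdAddChar n)]
    simp [ZMod.card]
  have h1 : (((Finset.univ : Finset (Fin k → Fin T)).filter
      (fun v => 1 + ∑ i, c i * th ^ (v i : ℕ) = 0)).card : ℂ) * n
      = ∑ a : ZMod n, ZMod.stdAddChar a *
          ∏ i, ∑ t ∈ range T, ZMod.stdAddChar (a * c i * th ^ t) := by
    rw [← Finset.sum_congr rfl (fun a _ => sum_word n T k th c a), Finset.sum_comm,
      Finset.sum_congr rfl (fun v _ => h0 v), Finset.card_filter, Nat.cast_sum, Finset.sum_mul]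
    refine Finset.sum_congr rfl (fun v _ => ?_)
    split_ifs <;> simp
  have h2 : (prbv n T k th c : ℂ) = (((Finset.univ : Finset (Fin k → Fin T)).filter
      (fun v => 1 + ∑ i, c i * th ^ (v i : ℕ) = 0)).card : ℂ) / (T : ℂ) ^ k := by
    unfold prbv
    push_cast
    rfl
  have h3 : (∑ a : ZMod n, ZMod.stdAddChar a * ∏ i, muv n T th (a * c i))
      = (∑ a : ZMod n, ZMod.stdAddChar a *
          ∏ i, ∑ t ∈ range T, ZMod.stdAddChar (a * c i * th ^ t)) / (T : ℂ) ^ k := by
    rw [Finset.sum_div]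
    refine Finset.sum_congr rfl (fun a _ => ?_)
    unfold muv
    rw [Finset.prod_div_distrib, Finset.prod_const, Finset.card_univ, Fintype.card_fin,
      mul_div_assoc]
  rw [h2, h3, ← h1]
  field_simp

theorem hPF3 : StPF3 := by
  intro n T k _ th c hT
  have hn : (n : ℂ) ≠ 0 := by exact_mod_cast NeZero.ne n
  have hTc : (T : ℂ) ≠ 0 := by exact_mod_cast hT.ne'
  have h0 : muv n T th 0 = 1 := by
    unfold muv
    simp only [zero_mul, AddChar.map_zero_eq_one, Finset.sum_const, Finset.card_range,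
      nsmul_eq_mul, mul_one]
    exact div_self hTc
  have h1 : (∑ a : ZMod n, ZMod.stdAddChar a * ∏ i, muv n T th (a * c i))
      = 1 + ∑ a ∈ Finset.univ.erase (0 : ZMod n),
          ZMod.stdAddChar a * ∏ i, muv n T th (a * c i) := by
    rw [← Finset.add_sum_erase _ _ (Finset.mem_univ (0 : ZMod n))]
    simp only [zero_mul]
    rw [h0]
    simp
  have h2 : ((prbv n T k th c - 1 / n : ℝ) : ℂ)
      = (∑ a ∈ Finset.univ.erase (0 : ZMod n),
          ZMod.stdAddChar a * ∏ i, muv n T th (a * c i)) / n := by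
    push_cast
    rw [prbv_eq n T k th c hT, h1]
    ring
  have h3 : |prbv n T k th c - 1 / n|
      = ‖∑ a ∈ Finset.univ.erase (0 : ZMod n),
          ZMod.stdAddChar a * ∏ i, muv n T th (a * c i)‖ / n := by
    rw [← Real.norm_eq_abs, ← Complex.norm_real, h2, norm_div, Complex.norm_natCast]
  rw [h3]
  refine div_le_div_of_nonneg_right ?_ (Nat.cast_nonneg n)
  refine (norm_sum_le _ _).trans ?_
  rw [← Finset.add_sum_erase _ _ (Finset.mem_univ (0 : ZMod n))]
  rw [if_pos rfl, zero_add]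
  refine Finset.sum_le_sum (fun a ha => ?_)
  rw [if_neg (Finset.ne_of_mem_erase ha), norm_mul, norm_prod]
  have : ‖(ZMod.stdAddChar a : ℂ)‖ = 1 := by
    simp
  rw [this, one_mul]

end Pool.Agent.Helper99.SPR
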