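import Pool.Agent.Helper36.SPR.St

/-!
Project SPR (MP_343216_nt), module PA: the probability that a prime divides.
-/

set_option autoImplicit false

namespace Pool.Agent.Helper99.SPR

open Pool.Agent.Helper36.SPR

theorem hPA (hPF : StPF) (hEP : StEP) : StPA := by
  obtain ⟨ε, hε, p₀, hp₀⟩ := hEP
  refine ⟨⌈2 / ε⌉₊, max p₀ 2, ?_⟩
  intro p T k _ hk hp hpp hT h2 hord
  have hp1 : p₀ ≤ p := (le_max_left _ _).trans hp
  have hpos : (0 : ℝ) < p := by exact_mod_cast hpp.pos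
  have hone : (1 : ℝ) ≤ p := by exact_mod_cast hpp.one_lt.le
  have hk2 : 2 ≤ ε * k := by
    have h1 : 2 / ε ≤ (k : ℝ) := (Nat.le_ceil _).trans (by exact_mod_cast hk)
    rw [div_le_iff₀ hε] at h1
    linarith
  have hterm : ∀ a : ZMod p, (if a = 0 then (0 : ℝ) else ‖mu p T a‖ ^ k) ≤ 1 / (p : ℝ) ^ 2 := by
    intro a
    split_ifs with h
    · positivity
    · have h1 := hp₀ p T hp1 hpp hT h2 hord a h
      calc ‖mu p T a‖ ^ k ≤ ((p : ℝ) ^ (-ε)) ^ k :=
            pow_le_pow_left₀ (norm_nonneg _) h1 k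
        _ = (p : ℝ) ^ (-(ε * k)) := by
            rw [← Real.rpow_natCast, ← Real.rpow_mul hpos.le]
            congr 1
            ring
        _ ≤ (p : ℝ) ^ (-(2 : ℝ)) := Real.rpow_le_rpow_of_exponent_le hone (by linarith)
        _ = 1 / (p : ℝ) ^ 2 := by
            rw [Real.rpow_neg hpos.le, one_div]
            norm_num
  have h1 := (hPF p T k hT).2
  refine h1.trans ?_
  have hsum : (∑ a : ZMod p, if a = 0 then (0 : ℝ) else ‖mu p T a‖ ^ k) ≤ p * (1 / (p : ℝ) ^ 2) := by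
    calc (∑ a : ZMod p, if a = 0 then (0 : ℝ) else ‖mu p T a‖ ^ k)
        ≤ ∑ _a : ZMod p, 1 / (p : ℝ) ^ 2 := Finset.sum_le_sum fun a _ => hterm a
      _ = p * (1 / (p : ℝ) ^ 2) := by
          rw [Finset.sum_const, Finset.card_univ, ZMod.card, nsmul_eq_mul]
  rw [div_le_iff₀ hpos]
  linarith

end Pool.Agent.Helper99.SPR
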